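import Pool.Agent.J6H50.RF.Stm

/-!
# Quadruples
-/

set_option autoImplicit false

namespace Pool.Agent.J6H33.RF10

open Pool.Agent.J6H50.RF Pool.Agent.NPC

theorem pr_inj (a b c d : ℕ) (h : pr a b = pr c d) : a = c ∧ b = d := by
  unfold pr at h
  have h1 : a + b = c + d := by
    rcases lt_trichotomy (a + b) (c + d) with h2 | h2 | h2
    · exfalso
      have h3 : a + b + 1 ≤ c + d := h2
      have h4 := Nat.mul_le_mul h3 h3
      nlinarith
    · exact h2
    · exfalso
      have h3 : c + d + 1 ≤ a + b := h2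
      have h4 := Nat.mul_le_mul h3 h3
      nlinarith
  rw [h1] at h
  omega

theorem pr_left (a b : ℕ) : a ≤ pr a b := by
  unfold pr
  exact Nat.le_add_left _ _

theorem pr_right (a b : ℕ) : b ≤ pr a b := by
  unfold pr
  have h1 : b ≤ a + b := Nat.le_add_left _ _
  have h2 : a + b ≤ (a + b) * (a + b) := Nat.le_mul_self _
  omega

theorem pr_lt (n a b : ℕ) (ha : a < 2 ^ n) (hb : b < 2 ^ n) : pr a b < 2 ^ (2 * n + 2) := by
  have h1 : pr a b < (a + b + 1) * (a + b + 1) := by
    unfold pr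
    nlinarith
  have h2 : a + b + 1 ≤ 2 ^ (n + 1) := by
    rw [pow_succ]
    omega
  have h3 := Nat.mul_le_mul h2 h2
  have h4 : 2 ^ (n + 1) * 2 ^ (n + 1) = 2 ^ (2 * n + 2) := by
    rw [← pow_add]
    congr 1
    ring
  omega

theorem m10 : S_qd := by
  refine ⟨pr_inj, ?_, ?_, ?_, ?_⟩
  · intro a x z u a' x' z' u' h
    obtain ⟨h1, h2⟩ := pr_inj _ _ _ _ h
    obtain ⟨h3, h4⟩ := pr_inj _ _ _ _ h1
    obtain ⟨h5, h6⟩ := pr_inj _ _ _ _ h2
    exact ⟨h3, h4, h5, h6⟩
  · intro n a x z u ha hx hz hu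
    have h1 := pr_lt n a x ha hx
    have h2 := pr_lt n z u hz hu
    have h3 := pr_lt _ _ _ h1 h2
    have h4 : (qd a x z u).size ≤ 2 * (2 * n + 2) + 2 := Nat.size_le.2 h3
    omega
  · intro a x z u
    have h1 := pr_left a x
    have h2 := pr_right a x
    have h3 := pr_left z u
    have h4 := pr_right z u
    have h5 := pr_left (pr a x) (pr z u)
    have h6 := pr_right (pr a x) (pr z u)
    unfold qd
    exact ⟨h1.trans h5, h2.trans h5, h3.trans h6, h4.trans h6⟩
  · intro v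
    rfl

end Pool.Agent.J6H33.RF10
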