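import Pool.Agent.J6H50.RF.Stm

/-!
# Certificates if tally sets in the second level are in `P`
-/

set_option autoImplicit false

namespace Pool.Agent.J6H33.RF24

open Pool.Agent.J6H50.RF Pool.Agent.NPC

theorem poly_pr {α : Type} [TEnc α] {f g : α → ℕ} (hf : Poly f) (hg : Poly g) :
    Poly (fun a => pr (f a) (g a)) :=
  Poly.add (Poly.mul (Poly.add hf hg) (Poly.add hf hg)) hf

theorem uPoly_pr {α : Type} [TEnc α] {f g : α → ℕ} (hf : UPoly f) (hg : UPoly g) :
    UPoly (fun a => pr (f a) (g a)) :=
  UPoly.add (UPoly.mul (UPoly.add hf hg) (UPoly.add hf hg)) hf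

theorem m24 : S_cb := by
  classical
  intro hraw hqd μ hpi htal
  obtain ⟨D, hD⟩ : ∃ D : Set (List Bool), D = {x | ∃ e n t : ℕ,
    x = List.replicate (pr e (pr n t)) true ∧ ¬ Cond μ e n t} := ⟨_, rfl⟩
  have hD1 : Tally D := by
    intro x hx
    rw [hD] at hx
    obtain ⟨e, n, t, h, _⟩ := hx
    exact ⟨_, h⟩
  have hD2 : InSigma2 D := by
    have h : Dᶜ = {x | ∀ e n t : ℕ, x = List.replicate (pr e (pr n t)) true → Cond μ e n t} := by
      ext x
      rw [hD]
      constructor
      · intro hx e n t hxe
        by_contra hc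
        exact hx ⟨e, n, t, hxe, hc⟩
      · rintro hx ⟨e, n, t, hxe, hc⟩
        exact hc (hx e n t hxe)
    unfold InSigma2
    rw [h]
    exact hpi
  obtain ⟨V, hV, hVD⟩ := htal D hD1 hD2
  have hVp : Poly V := hraw.1 V hV
  have hall : ∀ (l : List Bool) (k : ℕ), (l.all fun b => b) = true → l.length = k →
      l = List.replicate k true := by
    intro l k h1 h2
    rw [List.eq_replicate_iff]
    refine ⟨h2, fun b hb => ?_⟩
    exact List.all_eq_true.1 h1 b hb
  refine ⟨fun w => (w.2.2.2.all fun b => b) &&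
    (decide (w.2.2.2.length = pr w.1 (pr w.2.1.length w.2.2.1.length)) &&
      decide (¬ V w.2.2.2 = [true])), ?_, ?_, ?_⟩
  · have hπ : Poly (fun w : ℕ × List Unit × List Unit × List Bool => w.2.2.2) :=
      Poly.snd (Poly.snd (Poly.snd Poly.id))
    refine Poly.and (Poly.all (p := fun _ b => b) hπ (Poly.snd Poly.id)) (Poly.and
      (Poly.decide_eq (Poly.length hπ) (poly_pr (Poly.fst Poly.id) (poly_pr
        (Poly.length (Poly.fst (Poly.snd Poly.id)))
        (Poly.length (Poly.fst (Poly.snd (Poly.snd Poly.id)))))))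
      (Poly.decide_not (Poly.decide_eq (Poly.comp hVp hπ) (Pool.Agent.NPC.Poly.const _))))
  · intro e n t π h
    simp only [Bool.and_eq_true, decide_eq_true_eq] at h
    obtain ⟨h1, h2, h3⟩ := h
    by_contra hc
    apply h3
    rw [← hVD, hD]
    exact ⟨e, n.length, t.length, hall _ _ h1 h2, hc⟩
  · intro e t ht hcond
    refine ⟨fun n => List.replicate (pr e (pr n.length (t n).length)) true, ?_, ?_⟩
    · have h1 : UPoly (fun n : List Unit => pr e (pr n.length (t n).length)) :=
        uPoly_pr (UPoly.const e) (uPoly_pr (UPoly.length Poly.id) (UPoly.length ht))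
      exact (Pool.Agent.NPC.Poly.map h1 (F := fun _ _ => true) (Pool.Agent.NPC.Poly.const true)).congr fun n => by
        rw [List.map_replicate]
    · intro n
      simp only [Bool.and_eq_true, decide_eq_true_eq, List.length_replicate, true_and]
      refine ⟨?_, ?_⟩
      · rw [List.all_eq_true]
        intro b hb
        exact List.eq_of_mem_replicate hb
      · rw [← hVD, hD]
        rintro ⟨e', n', t', h1, h2⟩
        have h3 := congrArg List.length h1
        rw [List.length_replicate, List.length_replicate] at h3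
        obtain ⟨h4, h5⟩ := hqd.1 _ _ _ _ h3
        obtain ⟨h6, h7⟩ := hqd.1 _ _ _ _ h5
        rw [← h4, ← h6, ← h7] at h2
        exact h2 (hcond n)

end Pool.Agent.J6H33.RF24
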